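import Pool.Agent.Helper21.EM.Stmts

/-! Row HWM of project EM (T33): two irreducible representations with the same highest weight. -/

set_option autoImplicit false

open Matrix MT

namespace EM

namespace H74

variable {K : Type} [Field K] {r r' : ℕ}

/-- all nonzero entries have degree `x` -/
def Hom {n : ℕ} (d : Fin n → ℤ) (x : ℤ) (A : Matrix (Fin n) (Fin n) K) : Prop :=
  ∀ i j, A i j ≠ 0 → d i - d j = x

theorem hom_cmp {n : ℕ} (d : Fin n → ℤ) (x : ℤ) (A : Matrix (Fin n) (Fin n) K) :
    Hom d x (cmp d x A) := by
  intro i j h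
  by_contra hne
  exact h (by simp [MT.cmp, hne])

theorem cmp_of_hom {n : ℕ} {d : Fin n → ℤ} {x : ℤ} {A : Matrix (Fin n) (Fin n) K}
    (h : Hom d x A) : cmp d x A = A := by
  ext i j
  by_cases hx : d i - d j = x
  · simp [MT.cmp, hx]
  · have : A i j = 0 := by
      by_contra hne
      exact hx (h i j hne)
    simp [MT.cmp, hx, this]

theorem hom_mul {n : ℕ} {d : Fin n → ℤ} {x y : ℤ} {A B : Matrix (Fin n) (Fin n) K}
    (hA : Hom d x A) (hB : Hom d y B) : Hom d (x + y) (A * B) := by
  intro i j h
  rw [Matrix.mul_apply] at h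
  obtain ⟨k, _, hk⟩ := Finset.exists_ne_zero_of_sum_ne_zero h
  have h1 := hA i k (left_ne_zero_of_mul hk)
  have h2 := hB k j (right_ne_zero_of_mul hk)
  omega

theorem hom_sub {n : ℕ} {d : Fin n → ℤ} {x : ℤ} {A B : Matrix (Fin n) (Fin n) K}
    (hA : Hom d x A) (hB : Hom d x B) : Hom d x (A - B) := by
  intro i j h
  by_contra hne
  have h1 : A i j = 0 := by
    by_contra h1
    exact hne (hA i j h1)
  have h2 : B i j = 0 := by
    by_contra h2
    exact hne (hB i j h2)
  exact h (by rw [Matrix.sub_apply, h1, h2, sub_zero])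

theorem sum_cmp {n : ℕ} (d : Fin n → ℤ) (A : Matrix (Fin n) (Fin n) K) (S : Finset ℤ)
    (hS : ∀ i j, d i - d j ∈ S) : ∑ x ∈ S, cmp d x A = A := by
  ext i j
  rw [Matrix.sum_apply]
  simp only [MT.cmp, Matrix.of_apply]
  rw [Finset.sum_ite_eq]
  simp [hS i j]

/-- the action on the sum of the two spaces -/
def act (p : Matrix (Fin r) (Fin r) K × Matrix (Fin r') (Fin r') K) :
    ((Fin r → K) × (Fin r' → K)) →ₗ[K] ((Fin r → K) × (Fin r' → K)) :=
  LinearMap.prodMap p.1.mulVecLin p.2.mulVecLin

theorem act_apply (p : Matrix (Fin r) (Fin r) K × Matrix (Fin r') (Fin r') K)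
    (v : (Fin r → K) × (Fin r' → K)) : act p v = (p.1.mulVec v.1, p.2.mulVec v.2) := rfl

theorem act_bracket (p q : Matrix (Fin r) (Fin r) K × Matrix (Fin r') (Fin r') K)
    (v : (Fin r → K) × (Fin r' → K)) :
    act q (act p v) = act p (act q v) + act (q * p - p * q) v := by
  simp only [act_apply, Prod.fst_sub, Prod.snd_sub, Prod.fst_mul, Prod.snd_mul,
    Matrix.sub_mulVec, Matrix.mulVec_mulVec, Prod.mk_add_mk, add_sub_cancel]

theorem act_sum {ι : Type} (S : Finset ι)
    (f : ι → Matrix (Fin r) (Fin r) K × Matrix (Fin r') (Fin r') K)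
    (v : (Fin r → K) × (Fin r' → K)) : act (∑ x ∈ S, f x) v = ∑ x ∈ S, act (f x) v := by
  classical
  induction S using Finset.induction_on with
  | empty => simp [act_apply]
  | insert a S ha ih =>
    rw [Finset.sum_insert ha, Finset.sum_insert ha, ← ih]
    simp only [act_apply, Prod.fst_add, Prod.snd_add, Matrix.add_mulVec, Prod.mk_add_mk]

/-- words of negative degree applied to the highest weight vector -/
inductive Wd (R : Submodule K (Matrix (Fin r) (Fin r) K × Matrix (Fin r') (Fin r') K))
    (s : Fin r → ℤ) (s' : Fin r' → ℤ) (u : (Fin r → K) × (Fin r' → K)) :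
    ((Fin r → K) × (Fin r' → K)) → Prop
  | base : Wd R s s' u u
  | step (p : Matrix (Fin r) (Fin r) K × Matrix (Fin r') (Fin r') K) (x : ℤ) (hp : p ∈ R)
      (hx : x < 0) (h1 : Hom s x p.1) (h2 : Hom s' x p.2) (f : (Fin r → K) × (Fin r' → K))
      (hf : Wd R s s' u f) : Wd R s s' u (act p f)

end H74

open H74

theorem st_HWM : ST_HWM := by
  intro K _ _ r r' R s s' i₀ j₀ hbr hcomp hirr hirr' htop hs hs' hdeg0
  classical
  set u : (Fin r → K) × (Fin r' → K) := (Pi.single i₀ 1, Pi.single j₀ 1) with hu
  set T : Submodule K ((Fin r → K) × (Fin r' → K)) := Submodule.span K {f | Wd R s s' u f} with hT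
  have hTw : ∀ f, Wd R s s' u f → f ∈ T := fun f hf => Submodule.subset_span hf
  -- stability under negative elements
  have hneg : ∀ p ∈ R, ∀ x : ℤ, x < 0 → Hom s x p.1 → Hom s' x p.2 → ∀ f ∈ T, act p f ∈ T := by
    intro p hp x hx h1 h2 f hf
    have : T ≤ T.comap (act p) := by
      rw [hT, Submodule.span_le]
      intro g hg
      exact hTw _ (Wd.step p x hp hx h1 h2 g hg)
    exact this hf
  -- the base vector
  have hbase : ∀ q ∈ R, ∀ y : ℤ, 0 ≤ y → Hom s y q.1 → Hom s' y q.2 → act q u ∈ T := by
    intro q hq y hy h1 h2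
    rcases hy.lt_or_eq with hy | hy
    · have e : act q u = 0 := by
        rw [act_apply]
        refine Prod.ext ?_ ?_
        · ext i
          simp only [hu, Matrix.mulVec_single, MulOpposite.op_one, one_smul, Matrix.col_apply,
            Prod.fst_zero, Pi.zero_apply]
          by_contra hne
          have h3 := h1 i i₀ hne
          by_cases hi : i = i₀
          · subst hi; omega
          · have := hs i hi; omega
        · ext i
          simp only [hu, Matrix.mulVec_single, MulOpposite.op_one, one_smul, Matrix.col_apply,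
            Prod.snd_zero, Pi.zero_apply]
          by_contra hne
          have h3 := h2 i j₀ hne
          by_cases hi : i = j₀
          · subst hi; omega
          · have := hs' i hi; omega
      rw [e]
      exact T.zero_mem
    · subst hy
      have hq0 := hdeg0 q hq (cmp_of_hom h1) (cmp_of_hom h2)
      have e : act q u = q.1 i₀ i₀ • u := by
        rw [act_apply]
        refine Prod.ext ?_ ?_
        · ext i
          simp only [hu, Matrix.mulVec_single, MulOpposite.op_one, one_smul, Matrix.col_apply,
            Prod.smul_fst, Pi.smul_apply, smul_eq_mul]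
          by_cases hi : i = i₀
          · subst hi; simp
          · rw [Pi.single_eq_of_ne hi, mul_zero]
            by_contra hne
            have h3 := h1 i i₀ hne
            have := hs i hi
            omega
        · ext i
          simp only [hu, Matrix.mulVec_single, MulOpposite.op_one, one_smul, Matrix.col_apply,
            Prod.smul_snd, Pi.smul_apply, smul_eq_mul]
          by_cases hi : i = j₀
          · subst hi; simp [hq0]
          · rw [Pi.single_eq_of_ne hi, mul_zero]
            by_contra hne
            have h3 := h2 i j₀ hne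
            have := hs' i hi
            omega
      rw [e]
      exact T.smul_mem _ (hTw _ Wd.base)
  -- stability under elements of degree `≥ 0`
  have hnn : ∀ f, Wd R s s' u f → ∀ q ∈ R, ∀ y : ℤ, 0 ≤ y → Hom s y q.1 → Hom s' y q.2 →
      act q f ∈ T := by
    intro f hf
    induction hf with
    | base => exact hbase
    | step p x hp hx h1 h2 f hf ih =>
      intro q hq y hy g1 g2
      rw [act_bracket]
      refine T.add_mem (hneg p hp x hx h1 h2 _ (ih q hq y hy g1 g2)) ?_
      have hb : q * p - p * q ∈ R := hbr q hq p hp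
      have e1 : Hom s (y + x) (q * p - p * q).1 := by
        rw [Prod.fst_sub, Prod.fst_mul, Prod.fst_mul]
        refine hom_sub (hom_mul g1 h1) ?_
        rw [add_comm]
        exact hom_mul h1 g1
      have e2 : Hom s' (y + x) (q * p - p * q).2 := by
        rw [Prod.snd_sub, Prod.snd_mul, Prod.snd_mul]
        refine hom_sub (hom_mul g2 h2) ?_
        rw [add_comm]
        exact hom_mul h2 g2
      rcases lt_or_ge (y + x) 0 with h | h
      · exact hneg _ hb _ h e1 e2 f (hTw f hf)
      · exact ih _ hb _ h e1 e2
  have hhom : ∀ q ∈ R, ∀ y : ℤ, Hom s y q.1 → Hom s' y q.2 → ∀ f ∈ T, act q f ∈ T := by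
    intro q hq y g1 g2 f hf
    rcases lt_or_ge y 0 with h | h
    · exact hneg q hq y h g1 g2 f hf
    · have : T ≤ T.comap (act q) := by
        rw [hT, Submodule.span_le]
        intro g hg
        exact hnn g hg q hq y h g1 g2
      exact this hf
  have hstab : ∀ p ∈ R, ∀ f ∈ T, act p f ∈ T := by
    intro p hp f hf
    set S : Finset ℤ := (Finset.univ.image fun q : Fin r × Fin r => s q.1 - s q.2) ∪
      (Finset.univ.image fun q : Fin r' × Fin r' => s' q.1 - s' q.2) with hS
    have e : p = ∑ x ∈ S, (cmp s x p.1, cmp s' x p.2) := by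
      refine Prod.ext ?_ ?_
      · rw [Prod.fst_sum]
        refine (sum_cmp s p.1 S fun i j => ?_).symm
        exact Finset.mem_union_left _ (Finset.mem_image.2 ⟨(i, j), Finset.mem_univ _, rfl⟩)
      · rw [Prod.snd_sum]
        refine (sum_cmp s' p.2 S fun i j => ?_).symm
        exact Finset.mem_union_right _ (Finset.mem_image.2 ⟨(i, j), Finset.mem_univ _, rfl⟩)
    rw [e, act_sum]
    refine T.sum_mem fun x _ => ?_
    exact hhom _ (hcomp p hp x) x (hom_cmp s x p.1) (hom_cmp s' x p.2) f hf
  -- the top coordinates agree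
  have htopc : ∀ f ∈ T, f.1 i₀ = f.2 j₀ := by
    intro f hf
    have : T ≤ LinearMap.eqLocus ((LinearMap.proj i₀).comp (LinearMap.fst K (Fin r → K) (Fin r' → K)))
        ((LinearMap.proj j₀).comp (LinearMap.snd K (Fin r → K) (Fin r' → K))) := by
      rw [hT, Submodule.span_le]
      intro g hg
      show g.1 i₀ = g.2 j₀
      cases hg with
      | base => simp [hu]
      | step p x hp hx h1 h2 f hf =>
        rw [act_apply]
        have e1 : (p.1.mulVec f.1) i₀ = 0 := by
          rw [Matrix.mulVec, dotProduct]
          refine Finset.sum_eq_zero fun j _ => ?_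
          have : p.1 i₀ j = 0 := by
            by_contra hne
            have h3 := h1 i₀ j hne
            by_cases hj : j = i₀
            · subst hj; omega
            · have := hs j hj; omega
          rw [this, zero_mul]
        have e2 : (p.2.mulVec f.2) j₀ = 0 := by
          rw [Matrix.mulVec, dotProduct]
          refine Finset.sum_eq_zero fun j _ => ?_
          have : p.2 j₀ j = 0 := by
            by_contra hne
            have h3 := h2 j₀ j hne
            by_cases hj : j = j₀
            · subst hj; omega
            · have := hs' j hj; omega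
          rw [this, zero_mul]
        simp only [e1, e2]
    exact this hf
  -- the second kernel is zero
  have hker : ∀ w : Fin r' → K, ((0 : Fin r → K), w) ∈ T → w = 0 := by
    rcases hirr' (T.comap (LinearMap.inr K (Fin r → K) (Fin r' → K))) (by
      intro p hp v hv
      have := hstab p hp _ hv
      rw [act_apply] at this
      simpa using this) with h | h
    · intro w hw
      have : w ∈ T.comap (LinearMap.inr K (Fin r → K) (Fin r' → K)) := hw
      rw [h] at this
      exact this
    · exfalso
      have h1 : Pi.single j₀ (1 : K) ∈ T.comap (LinearMap.inr K (Fin r → K) (Fin r' → K)) := by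
        rw [h]; trivial
      have h2 := htopc _ h1
      simp at h2
  -- the first projection is everything
  have hproj : T.map (LinearMap.fst K (Fin r → K) (Fin r' → K)) = ⊤ := by
    rcases hirr (T.map (LinearMap.fst K (Fin r → K) (Fin r' → K))) (by
      rintro p hp _ ⟨f, hf, rfl⟩
      exact ⟨act p f, hstab p hp f hf, rfl⟩) with h | h
    · exfalso
      have h1 : Pi.single i₀ (1 : K) ∈ T.map (LinearMap.fst K (Fin r → K) (Fin r' → K)) :=
        ⟨u, hTw _ Wd.base, rfl⟩
      rw [h] at h1
      have h2 := congrFun ((Submodule.mem_bot K).1 h1) i₀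
      simp at h2
    · exact h
  have hlift : ∀ j : Fin r, ∃ w : Fin r' → K, ((Pi.single j (1 : K) : Fin r → K), w) ∈ T := by
    intro j
    have h1 : Pi.single j (1 : K) ∈ T.map (LinearMap.fst K (Fin r → K) (Fin r' → K)) := by
      rw [hproj]; trivial
    obtain ⟨f, hf, h2⟩ := h1
    exact ⟨f.2, by rw [← h2]; exact hf⟩
  choose w hw using hlift
  set B : Matrix (Fin r') (Fin r) K := Matrix.of fun i j => w j i with hB
  have hgraph : ∀ v : Fin r → K, (v, B.mulVec v) ∈ T := by
    intro v
    have e : (v, B.mulVec v) = ∑ j, v j • ((Pi.single j (1 : K) : Fin r → K), w j) := by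
      refine Prod.ext ?_ ?_
      · rw [Prod.fst_sum]
        ext i
        simp [Finset.sum_apply, Pi.single_apply]
      · rw [Prod.snd_sum]
        ext i
        simp [Finset.sum_apply, Matrix.mulVec, dotProduct, hB, mul_comm]
    rw [e]
    exact T.sum_mem fun j _ => T.smul_mem _ (hw j)
  have huniq : ∀ v w1 w2, (v, w1) ∈ T → (v, w2) ∈ T → w1 = w2 := by
    intro v w1 w2 h1 h2
    have h3 := T.sub_mem h1 h2
    have h4 : ((0 : Fin r → K), w1 - w2) ∈ T := by simpa using h3
    exact sub_eq_zero.1 (hker _ h4)
  refine ⟨B, ?_, ?_⟩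
  · intro h0
    have h1 := hgraph (Pi.single i₀ 1)
    rw [h0, Matrix.zero_mulVec] at h1
    have h2 := htopc _ h1
    simp at h2
  · intro p hp
    ext i j
    have h1 := hstab p hp _ (hgraph (Pi.single j 1))
    rw [act_apply] at h1
    have h2 := hgraph (p.1.mulVec (Pi.single j 1))
    have h3 := huniq _ _ _ h1 h2
    have h4 := congrFun h3 i
    simp only [Matrix.mulVec_single_one] at h4
    exact h4

end EM
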